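import Pool.Agent.Results.MP_cda23d_nt.TowersAllModuli
import Pool.Agent.K9h52.SF.Cor

/-!
# Uniformity in all one-parameter families of elliptic curves at the rational points near a given point

Let `φ` be any map from the rational numbers to a metric space `X`, for example the inclusion in `ℝ` or in
`ℚ_ℓ`.  There is a subset `E` of `X` of Hausdorff dimension `0` such that for all `ξ ∈ X` outside `E`, all
`D` and all `τ > 0` there are `N` and `c > 0` with the following property.

Let `F(t, j) = 0` be ANY algebraic relation over `ℚ` of degree at most `D` in `t` which is not satisfied by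
a constant `j` for all `t` (`IsFamily D F`): for example `j = f(t)` for any nonconstant `f ∈ ℚ(t)` of degree
at most `D`, or the relation between a nonconstant function `t` on a curve `𝒞` over `ℚ` and the
`j`-invariant of any elliptic curve over `ℚ(𝒞)` with nonconstant `j`; so this is any one-parameter family
of elliptic curves.  Then for all `A` and all but finitely many `t ∈ ℚ` with
`dist (φ t) ξ ≤ A H(t) ^ (-τ)` EVERY rational `j` with `F(t, j) = 0` satisfies the uniformity statement
`UniformAt N c j`: for ALL `d`, ALL fields `K` which are reached from `ℚ` by finitely many steps, each of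
which adjoins a root of a polynomial of degree at most `d` or is a finite or infinite abelian extension,
ALL elliptic curves over `K` with invariant `j` and ALL `m ≥ 1` all of whose prime factors `p` satisfy
`N ≤ p ≤ exp (c √(log H(j)))` and `p > d`, the image of `Gal(ℚ̄ / K)` in `Aut(E[m])` contains
`SL₂(ℤ / m)`.

So in every one-parameter family over `ℚ` the members at all the good approximations `t` to `ξ`, of
every order `τ > 0`, have a large image, uniformly; and one set `E` of dimension `0` serves all the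
families and all orders.  More exactly, for `ε > 0` there is `c > 0` such that for fixed `N ≥ 5`, `D` and
`τ` the exceptional set of the `ξ` has dimension at most `D (5 / N + ε) / τ`.

Proof. By the theorem on rational roots `H(j) ≤ M H(t) ^ D` if `F(t, j) = 0` (and `F(t, ·) ≠ 0`, which
holds for all but finitely many `t`), and each `j` belongs to at most `D` values of `t`. So by
`TowersAllModuli` at most `C B ^ (D (5 / N + ε))` rational numbers `t` of height at most `B` have a related
`j` that is not uniform. This gives the bound for the dimension for one `F` by the lemma of Hausdorff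
and Cantelli (`Pool.Agent.R559.NP.near_dim`), and there are countably many `F`.
-/

set_option autoImplicit false

namespace Pool.Agent.Results.MP_cda23d_nt.FamiliesNearAPoint

open Polynomial
open TowersAllModuli (Uniform)

/-- the height of a rational number: the maximum of the absolute values of numerator and denominator -/
def ht (j : ℚ) : ℕ := max j.num.natAbs j.den

/-- The rational number `j` satisfies the uniformity statement for the primes from `N` to
`exp (c √(log H(j)))`: for all fields `K` of towers over `ℚ`, all elliptic curves over `K` with invariant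
`j` and all `m` whose prime factors are in this range and larger than the degrees in the tower the image
of the Galois group contains `SL₂(ℤ / m)`. -/
def UniformAt (N : ℕ) (c : ℝ) (j : ℚ) : Prop :=
  Uniform ℚ N (Real.exp (c * Real.sqrt (Real.log (ht j : ℝ)))) j

/-- The polynomial `F(t, j)` over `ℚ` has degree at most `D` in `t` (its coefficients as a polynomial in
the outer variable `j` are polynomials in `t` of degree at most `D`), and for no rational `j₀` the
polynomial `F(t, j₀)` in `t` is zero. -/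
structure IsFamily (D : ℕ) (F : ℚ[X][X]) : Prop where
  deg : ∀ k : ℕ, (F.coeff k).natDegree ≤ D
  nonconst : ∀ j : ℚ, F.eval (C j) ≠ 0

/-- the rational numbers `t` near `ξ`, to the order `τ` in the height, which are related by `F(t, j) = 0`
to a rational number `j` that does not satisfy the uniformity statement -/
def ExceptionsNear {X : Type} [MetricSpace X] (φ : ℚ → X) (ξ : X) (τ A : ℝ) (N : ℕ) (c : ℝ) (F : ℚ[X][X]) :
    Set ℚ :=
  {t | dist (φ t) ξ ≤ A * (ht t : ℝ) ^ (-τ) ∧ ∃ j : ℚ, F.evalEval t j = 0 ∧ ¬ UniformAt N c j}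

/-- the counting theorem, with the range of primes depending on the height of `j` -/
lemma count (ε : ℝ) (hε : 0 < ε) : ∃ c : ℝ, 0 < c ∧ ∀ N : ℕ, 5 ≤ N → ∀ η : ℝ, 0 < η → ∃ C : ℝ, ∀ X : ℝ, 1 ≤ X →
    {j | j ∈ {j : ℚ | ¬ UniformAt N c j} ∧ (Pool.Agent.K9h52.SF.ht j : ℝ) ≤ X}.Finite ∧
      (({j | j ∈ {j : ℚ | ¬ UniformAt N c j} ∧ (Pool.Agent.K9h52.SF.ht j : ℝ) ≤ X}.ncard : ℕ) : ℝ) ≤
        C * X ^ (5 / (N : ℝ) + ε + η) := by
  obtain ⟨C, c, -, hc, h⟩ := TowersAllModuli.count_one hε
  refine ⟨c, hc, fun N hN η hη => ⟨|C|, fun X hX => ?_⟩⟩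
  obtain ⟨h1, h2⟩ := h N hN X hX
  have hsub : {j | j ∈ {j : ℚ | ¬ UniformAt N c j} ∧ (Pool.Agent.K9h52.SF.ht j : ℝ) ≤ X} ⊆
      TowersAllModuli.ExceptionalInvariants N c X := by
    rintro j ⟨h3, h4⟩
    have h5 : (j.num.natAbs : ℝ) ≤ X := le_trans (by exact_mod_cast le_max_left _ _) h4
    have h6 : (j.den : ℝ) ≤ X := le_trans (by exact_mod_cast le_max_right _ _) h4
    refine ⟨by rwa [Nat.cast_natAbs, Int.cast_abs] at h5, h6, fun h7 => h3 ?_⟩
    refine TowersAllModuli.Uniform.mono ?_ h7
    have h8 : (1 : ℝ) ≤ (ht j : ℝ) := by exact_mod_cast Pool.Agent.K9h52.SF.one_le_ht j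
    exact Real.exp_le_exp.2 (mul_le_mul_of_nonneg_left (Real.sqrt_le_sqrt (Real.log_le_log (by linarith) h4)) hc.le)
  refine ⟨h1.subset hsub, ?_⟩
  calc (({j | j ∈ {j : ℚ | ¬ UniformAt N c j} ∧ (Pool.Agent.K9h52.SF.ht j : ℝ) ≤ X}.ncard : ℕ) : ℝ)
      ≤ ((TowersAllModuli.ExceptionalInvariants N c X).ncard : ℝ) := by
        exact_mod_cast Set.ncard_le_ncard hsub h1
    _ ≤ C * X ^ (5 / (N : ℝ) + ε) := h2
    _ ≤ |C| * X ^ (5 / (N : ℝ) + ε) := mul_le_mul_of_nonneg_right (le_abs_self C) (by positivity)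
    _ ≤ |C| * X ^ (5 / (N : ℝ) + ε + η) :=
        mul_le_mul_of_nonneg_left (Real.rpow_le_rpow_of_exponent_le hX (by linarith)) (abs_nonneg _)

/-- **Theorem.** (1) For every `ε > 0` there is `c > 0` such that for all `N ≥ 5`, `D`, `τ > 0` and all maps
`φ` from `ℚ` to a metric space `X` there is a set `E` in `X` of Hausdorff dimension at most
`D (5 / N + ε) / τ` such that for all `ξ` outside `E`, all families `F` of degree at most `D` and all `A`
there are only finitely many `t ∈ ℚ` with `dist (φ t) ξ ≤ A H(t) ^ (-τ)` for which some rational `j` with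
`F(t, j) = 0` does not satisfy `UniformAt N c j`.
(2) For every map `φ` from `ℚ` to a metric space `X` there is a set `E` of Hausdorff dimension `0` such that
for all `ξ` outside `E`, all `D` and all `τ > 0` there are `N` and `c > 0` such that for all families `F` of
degree at most `D` and all `A` the same holds. -/
theorem result :
    (∀ ε : ℝ, 0 < ε → ∃ c : ℝ, 0 < c ∧ ∀ (N D : ℕ) (τ : ℝ), 5 ≤ N → 0 < τ →
      ∀ (X : Type) [MetricSpace X] (φ : ℚ → X), ∃ E : Set X,
        dimH E ≤ ENNReal.ofReal (D * (5 / N + ε) / τ) ∧ ∀ ξ : X, ξ ∉ E →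
          ∀ F : ℚ[X][X], IsFamily D F → ∀ A : ℝ, (ExceptionsNear φ ξ τ A N c F).Finite) ∧
    (∀ (X : Type) [MetricSpace X] (φ : ℚ → X), ∃ E : Set X, dimH E = 0 ∧ ∀ ξ : X, ξ ∉ E →
      ∀ (D : ℕ) (τ : ℝ), 0 < τ → ∃ (N : ℕ) (c : ℝ), 0 < c ∧
        ∀ F : ℚ[X][X], IsFamily D F → ∀ A : ℝ, (ExceptionsNear φ ξ τ A N c F).Finite) := by
  have key : ∀ ε : ℝ, 0 < ε → ∃ c : ℝ, 0 < c ∧ ∀ (N D : ℕ) (τ : ℝ), 5 ≤ N → 0 < τ →
      ∀ (X : Type) [MetricSpace X] (φ : ℚ → X), ∃ E : Set X,
        dimH E ≤ ENNReal.ofReal (D * (5 / N + ε) / τ) ∧ ∀ ξ : X, ξ ∉ E →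
          ∀ F : ℚ[X][X], Pool.Agent.K9h52.SF.IsCorr D F → ∀ A : ℝ,
            {t : ℚ | dist (φ t) ξ ≤ A * (Pool.Agent.K9h52.SF.ht t : ℝ) ^ (-τ) ∧
              ∃ j ∈ {j : ℚ | ¬ UniformAt N c j}, F.evalEval t j = 0}.Finite := by
    intro ε hε
    obtain ⟨c, hc, h⟩ := count ε hε
    refine ⟨c, hc, fun N D τ hN hτ X _ φ => ?_⟩
    exact Pool.Agent.K9h52.SF.near_corr (by positivity) (h N hN) D hτ φ
  have hconv : ∀ (X : Type) [MetricSpace X] (φ : ℚ → X) (ξ : X) (τ A : ℝ) (N : ℕ) (c : ℝ) (F : ℚ[X][X]),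
      ExceptionsNear φ ξ τ A N c F ⊆
        {t : ℚ | dist (φ t) ξ ≤ A * (Pool.Agent.K9h52.SF.ht t : ℝ) ^ (-τ) ∧
              ∃ j ∈ {j : ℚ | ¬ UniformAt N c j}, F.evalEval t j = 0} := by
    rintro X _ φ ξ τ A N c F t ⟨h1, j, h2, h3⟩
    exact ⟨h1, j, h3, h2⟩
  refine ⟨fun ε hε => ?_, fun X _ φ => ?_⟩
  · obtain ⟨c, hc, h⟩ := key ε hε
    refine ⟨c, hc, fun N D τ hN hτ X _ φ => ?_⟩
    obtain ⟨E, h1, h2⟩ := h N D τ hN hτ X φ
    exact ⟨E, h1, fun ξ hξ F hF A => (h2 ξ hξ F ⟨hF.deg, hF.nonconst⟩ A).subset (hconv X φ ξ τ A N c F)⟩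
  · have hkey := fun i : ℕ => key (1 / ((i : ℝ) + 1)) (by positivity)
    choose c hc h using hkey
    obtain ⟨E, h1, h2⟩ := Pool.Agent.K9h52.SF.near_corr_zero (X := X) (φ := φ)
      (S := fun i : ℕ => {j : ℚ | ¬ UniformAt (i + 5) (c i) j})
      (s := fun i : ℕ => 5 / ((i : ℝ) + 5) + 1 / ((i : ℝ) + 1)) (fun i => by positivity)
      (by
        have e1 : Filter.Tendsto (fun i : ℕ => 1 / ((i : ℝ) + 1)) Filter.atTop (nhds 0) :=
          tendsto_one_div_add_atTop_nhds_zero_nat
        have e2 : Filter.Tendsto (fun i : ℕ => 5 / ((i : ℝ) + 5)) Filter.atTop (nhds 0) :=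
          Filter.Tendsto.const_div_atTop
            (Filter.tendsto_atTop_add_const_right _ _ tendsto_natCast_atTop_atTop) 5
        simpa using e2.add e1)
      (by
        intro i D τ hτ
        obtain ⟨E, h3, h4⟩ := h i (i + 5) D τ (by omega) hτ X φ
        refine ⟨E, ?_, h4⟩
        push_cast at h3
        exact h3)
    refine ⟨E, h1, fun ξ hξ D τ hτ => ?_⟩
    obtain ⟨i, hi⟩ := h2 ξ hξ D τ hτ
    exact ⟨i + 5, c i, hc i, fun F hF A =>
      (hi F ⟨hF.deg, hF.nonconst⟩ A).subset (hconv X φ ξ τ A (i + 5) (c i) F)⟩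

end Pool.Agent.Results.MP_cda23d_nt.FamiliesNearAPoint
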