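import Pool.Agent.K9h56.AU.Cur

/-!
# Uniformity for all moduli composed of a long range of primes and over all fields of towers at once

Let `d ≥ 0`. We consider the fields `K` of algebraic numbers which are reached from `ℚ` by finitely many
steps of two kinds (`Tower d K`): a root of a polynomial of degree at most `d` is adjoined, or the field
is replaced by an abelian extension, finite or INFINITE. So `K` can be any number field of degree at most
`d`, any solvable Galois extension of `ℚ` of any degree, the field `ℚ^ab`, its maximal abelian extension,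
and so on.

For every `ε > 0` there are `C` and `c > 0` such that for every `N ≥ 5` the following holds.
Say that the rational number `j` is uniform up to `z` (`Uniform N z j`) if for ALL `d`, ALL these fields
`K`, ALL elliptic curves `E : y² = x³ + Ax + B` over `K` with invariant `j` and ALL `m ≥ 1` all of whose
prime factors `p` satisfy `N ≤ p ≤ z` and `p > d`, the image of `Gal(ℚ̄ / K)` in `Aut(E[m])` contains
`SL₂(ℤ / m)`. Then

* (1) for `X ≥ 1` all but `C X ^ (5 / N + ε)` of the rational numbers `j` (of about `X ^ 2`) with numerator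
  and denominator at most `X` are uniform up to `exp (c √(log X))`;
* (2) for `T ≥ 1` for all but `C T ^ (1 + 30 / N + ε)` of the pairs of nonzero integers `A`, `B` (of about
  `T ^ 5`) with `|A| ≤ T²`, `|B| ≤ T³`, `4A³ + 27B² ≠ 0` the invariant of `y² = x³ + Ax + B` is uniform up
  to `exp (c √(log T))`.

For `m = p` prime and `K = ℚ` this is the starting theorem `ExplicitWithoutSL`.

Proof. (a) *From `p` to `p ^ k`*: a subgroup of `SL₂(ℤ / p ^ k)`, `p ≥ 5`, which maps onto `SL₂(𝔽_p)` is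
everything (Serre): if `g ≡ 1 + n (mod p)` with `n ^ 2 = 0` then `g ^ p ≡ 1 + p n (mod p ^ 2)`, and these
matrices generate the kernel. (b) *Joining primes*: let `p` be the largest prime factor of `m = p ^ k n`. The
number of elements of `SL₂(ℤ / n)` is prime to `p`, as all prime factors `q` of `n` satisfy `5 ≤ q < p - 1`;
so powers of elements which are unipotent modulo `p` are `1` modulo `n` and unipotent modulo `p`, and
(a) applies to the subgroup of the elements which are `1` modulo `n`. (c) *Determinants*: the image of the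
Galois group is replaced by its commutator group, which contains the elementary matrices modulo `p` as
`(2 ^ 2 - 1)` is invertible. (d) *Towers*: an extension by a root of a polynomial of degree at most `d`
contains for each `σ` the fixed field of some `σ ^ i`, `i ≤ d`, prime to `m`, so that the elementary
matrices are kept, and (a), (b) apply again; an abelian extension contains the commutators, and (c)
applies again. (e) *Curves over `K`*: `E` is a quadratic twist over `K` of a curve over `ℚ`; the square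
root is one more step of the tower. (f) the counting theorem for `m = p`, `K = ℚ` is in the starting files
(`Pool.Agent.Y673.SY.few_Q2`, `few_boxQ2`).
-/

set_option autoImplicit false

open WeierstrassCurve

namespace Pool.Agent.Results.MP_cda23d_nt.TowersAllModuli

/-- The curve `y² = x³ + Ax + B` over a field. -/
def curve {F : Type} [Field F] (A B : F) : WeierstrassCurve F := ⟨0, 0, 0, A, B⟩

/-- Its `j`-invariant. -/
def invariant {F : Type} [Field F] (A B : F) : F := 1728 * (4 * A ^ 3) / (4 * A ^ 3 + 27 * B ^ 2)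

open scoped Classical in
/-- The group of its points over an extension `L`. -/
abbrev Points {F : Type} [Field F] (L : Type) [Field L] [Algebra F L] (A B : F) : Type :=
  ((curve A B).baseChange L).toAffine.Point

open scoped Classical in
/-- The action of an automorphism `σ` of `L` over `F` on the points. -/
noncomputable def galois {F : Type} [Field F] (L : Type) [Field L] [Algebra F L] (A B : F)
    (σ : L ≃ₐ[F] L) : Points L A B →+ Points L A B :=
  Affine.Point.map (W' := curve A B) (R := F) (S := F) (σ : L →ₐ[F] L)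

/-- The elements `P` and `Q` form a basis of the `m`-torsion of the abelian group `V`. -/
def IsBasis {V : Type} [AddCommGroup V] (m : ℕ) (P Q : V) : Prop :=
  m • P = 0 ∧ m • Q = 0 ∧ (∀ R : V, m • R = 0 → ∃ a b : ℤ, R = a • P + b • Q) ∧
    ∀ a b : ℤ, a • P + b • Q = 0 → (m : ℤ) ∣ a ∧ (m : ℤ) ∣ b

open scoped Classical in
/-- The image of `Gal(L / F)` in the automorphism group of the `m`-torsion contains all automorphisms of
determinant `1`: there is a basis of the `m`-torsion in which every matrix of determinant `1` modulo `m`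
is the matrix of some `σ`. -/
def ContainsSL {F : Type} [Field F] (L : Type) [Field L] [Algebra F L] (A B : F) (m : ℕ) : Prop :=
  ∃ P Q : Points L A B, IsBasis m P Q ∧
    ∀ a b c d : ℤ, (m : ℤ) ∣ a * d - b * c - 1 →
      ∃ σ : L ≃ₐ[F] L, galois L A B σ P = a • P + c • Q ∧ galois L A B σ Q = b • P + d • Q

/-- The extensions `K` of `k` in its algebraic closure which are reached from `k` by finitely many steps,
each of which adjoins a root of a polynomial of degree at most `d`, or passes from `K` to an abelian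
extension `L` (finite or infinite): any two automorphisms of the algebraic closure over `K` commute on
`L`. -/
inductive Tower (k : Type) [Field k] (d : ℕ) : IntermediateField k (AlgebraicClosure k) → Prop
  | base : Tower k d ⊥
  | root {K : IntermediateField k (AlgebraicClosure k)} (hK : Tower k d K) (f : Polynomial K) (hf : f ≠ 0)
      (hd : f.natDegree ≤ d) (α : AlgebraicClosure k) (hα : Polynomial.aeval α f = 0) :
      Tower k d (K ⊔ IntermediateField.adjoin k {α})
  | abelian {K L : IntermediateField k (AlgebraicClosure k)} (hK : Tower k d K) (hKL : K ≤ L)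
      (h : ∀ σ τ : AlgebraicClosure k ≃ₐ[k] AlgebraicClosure k, (∀ x ∈ K, σ x = x) → (∀ x ∈ K, τ x = x) →
        ∀ x ∈ L, σ (τ x) = τ (σ x)) : Tower k d L

/-- For all fields `K` of towers over `k`, all elliptic curves over `K` with the invariant `j` of `k` and
all `m ≥ 1` such that all prime factors `p` of `m` are at least `N` and at most `z` and larger than the
degrees `d` in the tower, the image of the Galois group of the algebraic closure over `K` in the
automorphism group of the `m`-torsion contains all automorphisms of determinant `1`. -/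
def Uniform (k : Type) [Field k] (N : ℕ) (z : ℝ) (j : k) : Prop :=
  ∀ (d : ℕ) (K : IntermediateField k (AlgebraicClosure k)), Tower k d K →
    ∀ A B : K, 4 * A ^ 3 + 27 * B ^ 2 ≠ 0 → invariant A B = algebraMap k K j →
      ∀ m : ℕ, m ≠ 0 → (∀ p : ℕ, p.Prime → p ∣ m → N ≤ p ∧ (p : ℝ) ≤ z ∧ d < p) →
        ContainsSL (AlgebraicClosure k) A B m

/-- The rational numbers with numerator and denominator at most `X` which are not uniform up to
`exp (c √(log X))`. -/
def ExceptionalInvariants (N : ℕ) (c X : ℝ) : Set ℚ :=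
  {j | |(j.num : ℝ)| ≤ X ∧ (j.den : ℝ) ≤ X ∧ ¬ Uniform ℚ N (Real.exp (c * Real.sqrt (Real.log X))) j}

/-- The pairs of nonzero integers `A`, `B` with `|A| ≤ T²`, `|B| ≤ T³`, `4A³ + 27B² ≠ 0` for which the
invariant of `y² = x³ + Ax + B` is not uniform up to `exp (c √(log T))`. -/
def ExceptionalCurves (N : ℕ) (c T : ℝ) : Set (ℤ × ℤ) :=
  {x | |(x.1 : ℝ)| ≤ T ^ 2 ∧ |(x.2 : ℝ)| ≤ T ^ 3 ∧ x.1 ≠ 0 ∧ x.2 ≠ 0 ∧
    4 * x.1 ^ 3 + 27 * x.2 ^ 2 ≠ 0 ∧
    ¬ Uniform ℚ N (Real.exp (c * Real.sqrt (Real.log T))) (invariant (x.1 : ℚ) (x.2 : ℚ))}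

section proofs

open Pool.Agent.K9h56.AU Pool.Agent.Y673.Loc

variable {k : Type} [Field k] [CharZero k]


omit [CharZero k] in
theorem Tower.mono {d d' : ℕ} (h : d ≤ d') {K : IntermediateField k (AlgebraicClosure k)} (hK : Tower k d K) :
    Tower k d' K := by
  induction hK with
  | base => exact Tower.base
  | root _ f hf hd α hα ih => exact Tower.root ih f hf (hd.trans h) α hα
  | abelian _ hKL h ih => exact Tower.abelian ih hKL h

open scoped Classical in
/-- along a tower -/
theorem fll_tower {a b : k} {m : ℕ} (hm : m ≠ 0) {P Q : Pool.Agent.H901R3.MS.Pt (ca (AlgebraicClosure k) a) (ca (AlgebraicClosure k) b)}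
    (hB : Bas m P Q) (hF : Fll (rh a b) m P Q ⊤) {d : ℕ}
    (hm5 : ∀ p : ℕ, p.Prime → p ∣ m → 5 ≤ p ∧ d < p) {K : IntermediateField k (AlgebraicClosure k)} (hK : Tower k d K) :
    Fll (rh a b) m P Q K.fixingSubgroup := by
  induction hK with
  | base =>
    rw [IntermediateField.fixingSubgroup_bot]
    exact hF
  | root _ f hf hd α hα ih =>
    exact step_pow (rh_act a b) hB hm (fun p h1 h2 => (hm5 p h1 h2).1)
      (fun σ hσ => root_step hf hd hα (fun p h1 h2 => (hm5 p h1 h2).2) hm σ hσ) ih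
  | abelian _ hKL h ih =>
    exact step_comm (rh_act a b) hB hm (fun p h1 h2 => (hm5 p h1 h2).1) (abelian_step h)
      (fun p h1 h2 => ih.mdp (fun p h1 h2 => (hm5 p h1 h2).1) hm h2)

theorem uniform_of {a b : k} (ha : a ≠ 0) (hb : b ≠ 0) (hD : 4 * a ^ 3 + 27 * b ^ 2 ≠ 0) {N : ℕ}
    (hN : 5 ≤ N) {z : ℝ} (h : ∀ p : ℕ, p.Prime → N ≤ p → (p : ℝ) ≤ z → Pool.Agent.Y673.SL.HasSL a b p) :
    Uniform k N z (invariant a b) := by
  classical
  intro d K hK A B hAB hj m hm hmp
  have hp5 : ∀ p : ℕ, p.Prime → p ∣ m → 5 ≤ p := fun p h1 h2 => hN.trans (hmp p h1 h2).1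
  obtain ⟨P, Q, hB, hF⟩ := fll_top hD hm
    (fun p h1 h2 => ⟨hp5 p h1 h2, h p h1 (hmp p h1 h2).1 (hmp p h1 h2).2.1⟩)
  set a' : K := algebraMap k K a with ha'
  set b' : K := algebraMap k K b with hb'
  have ha0 : a' ≠ 0 := (map_ne_zero _).2 ha
  have hb0 : b' ≠ 0 := (map_ne_zero _).2 hb
  have : CharZero K := charZero_of_injective_algebraMap (algebraMap k K).injective
  have hD' : 4 * a' ^ 3 + 27 * b' ^ 2 ≠ 0 := by
    have : 4 * a' ^ 3 + 27 * b' ^ 2 = algebraMap k K (4 * a ^ 3 + 27 * b ^ 2) := by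
      simp only [ha', hb', map_add, map_mul, map_pow, map_ofNat]
    rw [this]
    exact (map_ne_zero _).2 hD
  have hj' : 1728 * (4 * A ^ 3) / (4 * A ^ 3 + 27 * B ^ 2) =
      1728 * (4 * a' ^ 3) / (4 * a' ^ 3 + 27 * b' ^ 2) := by
    have h1 : invariant A B = algebraMap k K (invariant a b) := hj
    unfold invariant at h1
    rw [h1]
    simp only [ha', hb', map_add, map_mul, map_pow, map_ofNat, map_div₀]
  have hinv := inv_eq hD' hAB hj'
  have hA0 : A ≠ 0 := by
    rintro rfl
    rw [zero_pow (by norm_num), zero_mul] at hinv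
    have hB0 : B ^ 2 = 0 := (mul_eq_zero.1 hinv.symm).resolve_left (pow_ne_zero 3 ha0)
    apply hAB
    rw [hB0]
    ring
  have hB0 : B ≠ 0 := by
    rintro rfl
    rw [zero_pow (by norm_num), mul_zero] at hinv
    rcases mul_eq_zero.1 hinv with h1 | h1
    · exact hA0 (pow_eq_zero_iff (by norm_num) |>.1 h1)
    · exact hb0 (pow_eq_zero_iff (by norm_num) |>.1 h1)
  obtain ⟨u, t, hu, hut, hua, hub⟩ := exists_u ha hb hA0 hB0 hinv
  have hK' : Tower k (max d 2) (K ⊔ IntermediateField.adjoin k {u}) := by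
    refine Tower.root (hK.mono (le_max_left d 2)) (Polynomial.X ^ 2 - Polynomial.C t) ?_ ?_ u ?_
    · exact Polynomial.X_pow_sub_C_ne_zero (by norm_num) t
    · rw [Polynomial.natDegree_X_pow_sub_C]
      exact le_max_right _ _
    · rw [map_sub, map_pow, Polynomial.aeval_X, Polynomial.aeval_C, hut, sub_self]
  have hF' := fll_tower hm hB hF (d := max d 2) (fun p h1 h2 => ⟨hp5 p h1 h2, max_lt (hmp p h1 h2).2.2 (by
    have := hp5 p h1 h2
    omega)⟩) hK'
  obtain ⟨P', Q', hB', hS⟩ := curve_of hu hua hub hB hF'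
  set e := eqv A B (AlgebraicClosure k) with he
  refine ⟨e.symm P', e.symm Q', hB'.equiv e.symm, fun a₁ b₁ c₁ d₁ hdet => ?_⟩
  obtain ⟨σ, g1, g2⟩ := hS !![a₁, b₁; c₁, d₁] (by
    rw [D1.iff_dvd, Matrix.det_fin_two_of]
    exact hdet)
  have hcomm : ∀ R : Pool.Agent.H901R3.MS.Pt (ca (AlgebraicClosure k) A) (ca (AlgebraicClosure k) B),
      galois (AlgebraicClosure k) A B σ (e.symm R) = e.symm (mp A B (σ : (AlgebraicClosure k) →ₐ[K] (AlgebraicClosure k)) R) := by
    intro R
    apply e.injective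
    rw [AddEquiv.apply_symm_apply]
    rfl
  refine ⟨σ, ?_, ?_⟩
  · rw [hcomm, g1, map_add, map_zsmul, map_zsmul]
    rfl
  · rw [hcomm, g2, map_add, map_zsmul, map_zsmul]
    rfl

/-- a curve with given invariant -/
theorem exists_curve {j : ℚ} (h0 : j ≠ 0) (h1 : j ≠ 1728) :
    ∃ a b : ℚ, a ≠ 0 ∧ b ≠ 0 ∧ 4 * a ^ 3 + 27 * b ^ 2 ≠ 0 ∧ invariant a b = j := by
  have h2 : j - 1728 ≠ 0 := sub_ne_zero.2 h1
  have e1 : 4 * (-3 * j * (j - 1728)) ^ 3 + 27 * (-2 * j * (j - 1728) ^ 2) ^ 2 =
      -186624 * j ^ 2 * (j - 1728) ^ 3 := by ring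
  have e2 : (-186624 : ℚ) * j ^ 2 * (j - 1728) ^ 3 ≠ 0 :=
    mul_ne_zero (mul_ne_zero (by norm_num) (pow_ne_zero _ h0)) (pow_ne_zero _ h2)
  refine ⟨-3 * j * (j - 1728), -2 * j * (j - 1728) ^ 2, ?_, ?_, ?_, ?_⟩
  · exact mul_ne_zero (mul_ne_zero (by norm_num) h0) h2
  · exact mul_ne_zero (mul_ne_zero (by norm_num) h0) (pow_ne_zero _ h2)
  · rw [e1]; exact e2
  · unfold invariant
    rw [e1]
    field_simp
    ring

theorem jv_eq (a b : ℚ) : jv a b = invariant a b := by
  unfold jv invariant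
  ring

theorem count_one {ε : ℝ} (hε : 0 < ε) : ∃ C c : ℝ, 0 ≤ C ∧ 0 < c ∧ ∀ N : ℕ, 5 ≤ N → ∀ X : ℝ, 1 ≤ X →
    (ExceptionalInvariants N c X).Finite ∧
      ((ExceptionalInvariants N c X).ncard : ℝ) ≤ C * X ^ (5 / (N : ℝ) + ε) := by
  obtain ⟨C, c, hc, h⟩ := Pool.Agent.Y673.SY.few_Q2 hε
  refine ⟨|C| + 2, c, by positivity, hc, fun N hN X hX => ?_⟩
  obtain ⟨hf, hn⟩ := h N hN X hX
  have hsub : ExceptionalInvariants N c X ⊆ Pool.Agent.Y673.SX.ExQ N c X ∪ {0, 1728} := by
    rintro j ⟨h1, h2, h3⟩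
    by_cases h0 : j = 0
    · right; rw [h0]; simp
    by_cases h4 : j = 1728
    · right; rw [h4]; simp
    left
    by_contra hcon
    apply h3
    obtain ⟨a, b, ha, hb, hD, hj⟩ := exists_curve h0 h4
    rw [← hj]
    apply uniform_of ha hb hD hN
    intro p hp hNp hpz
    by_contra hno
    exact hcon ⟨h1, h2, a, b, hD, (jv_eq a b).trans hj, p, hp, hNp, hpz, hno⟩
  have hfin : (Pool.Agent.Y673.SX.ExQ N c X ∪ {0, 1728}).Finite :=
    hf.union (Set.toFinite _)
  refine ⟨hfin.subset hsub, ?_⟩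
  have hX1 : 1 ≤ X ^ (5 / (N : ℝ) + ε) := Real.one_le_rpow hX (by positivity)
  have h1 : (ExceptionalInvariants N c X).ncard ≤ (Pool.Agent.Y673.SX.ExQ N c X).ncard + 2 := by
    refine (Set.ncard_le_ncard hsub hfin).trans ((Set.ncard_union_le _ _).trans ?_)
    refine Nat.add_le_add_left ((Set.ncard_insert_le _ _).trans ?_) _
    rw [Set.ncard_singleton]
  have h2 : ((ExceptionalInvariants N c X).ncard : ℝ) ≤ ((Pool.Agent.Y673.SX.ExQ N c X).ncard : ℝ) + 2 := by
    exact_mod_cast h1
  calc ((ExceptionalInvariants N c X).ncard : ℝ) ≤ C * X ^ (5 / (N : ℝ) + ε) + 2 := by linarith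
    _ ≤ |C| * X ^ (5 / (N : ℝ) + ε) + 2 * X ^ (5 / (N : ℝ) + ε) := by
        have := mul_le_mul_of_nonneg_right (le_abs_self C) (by linarith : (0 : ℝ) ≤ X ^ (5 / (N : ℝ) + ε))
        linarith
    _ = (|C| + 2) * X ^ (5 / (N : ℝ) + ε) := by ring

theorem count_two {ε : ℝ} (hε : 0 < ε) : ∃ C c : ℝ, 0 ≤ C ∧ 0 < c ∧ ∀ N : ℕ, 5 ≤ N → ∀ T : ℝ, 1 ≤ T →
    (ExceptionalCurves N c T).Finite ∧
      ((ExceptionalCurves N c T).ncard : ℝ) ≤ C * T ^ (1 + 30 / (N : ℝ) + ε) := by
  obtain ⟨C, c, hc, h⟩ := Pool.Agent.Y673.SY.few_boxQ2 hε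
  refine ⟨|C|, c, abs_nonneg C, hc, fun N hN T hT => ?_⟩
  obtain ⟨hf, hn⟩ := h N hN T hT
  have hsub : ExceptionalCurves N c T ⊆ Pool.Agent.Y673.SX.BxQ N c T := by
    rintro x ⟨h1, h2, h3, h4, h5, h6⟩
    by_contra hcon
    apply h6
    have h3' : (x.1 : ℚ) ≠ 0 := by exact_mod_cast h3
    have h4' : (x.2 : ℚ) ≠ 0 := by exact_mod_cast h4
    have h5' : 4 * (x.1 : ℚ) ^ 3 + 27 * (x.2 : ℚ) ^ 2 ≠ 0 := by exact_mod_cast h5
    apply uniform_of h3' h4' h5' hN
    intro p hp hNp hpz
    by_contra hno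
    exact hcon ⟨h1, h2, h3, h4, h5, p, hp, hNp, hpz, hno⟩
  refine ⟨hf.subset hsub, ?_⟩
  calc ((ExceptionalCurves N c T).ncard : ℝ) ≤ ((Pool.Agent.Y673.SX.BxQ N c T).ncard : ℝ) := by
        exact_mod_cast Set.ncard_le_ncard hsub hf
    _ ≤ C * T ^ (1 + 30 / (N : ℝ) + ε) := hn
    _ ≤ |C| * T ^ (1 + 30 / (N : ℝ) + ε) :=
        mul_le_mul_of_nonneg_right (le_abs_self C) (Real.rpow_nonneg (by linarith) _)

theorem Uniform.mono {N : ℕ} {z z' : ℝ} (h : z' ≤ z) {j : ℚ} (hU : Uniform ℚ N z j) : Uniform ℚ N z' j := by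
  intro d K hK A B hAB hj m hm hmp
  exact hU d K hK A B hAB hj m hm
    (fun p h1 h2 => ⟨(hmp p h1 h2).1, (hmp p h1 h2).2.1.trans h, (hmp p h1 h2).2.2⟩)

theorem tower_finite (K : IntermediateField k (AlgebraicClosure k)) [FiniteDimensional k K] {d : ℕ}
    (hd : Module.finrank k K ≤ d) : Tower k d K := by
  obtain ⟨f, α, hf, hfd, hα, hK⟩ := exists_root (K := K)
  rw [hK]
  exact Tower.root Tower.base f hf (hfd.trans hd) α hα

end proofs

/-- **Theorem.** For every `ε > 0` there are `C` and `c > 0` such that for every `N ≥ 5`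
(1) at most `C X ^ (5 / N + ε)` rational numbers of height at most `X ≥ 1` are not uniform up to
`exp (c √(log X))`;
(2) the invariants of at most `C T ^ (1 + 30 / N + ε)` of the pairs `(A, B)`, `|A| ≤ T²`, `|B| ≤ T³`, are not
uniform up to `exp (c √(log T))`. -/
theorem result :
    ∀ ε : ℝ, 0 < ε → ∃ C c : ℝ, 0 < c ∧ ∀ N : ℕ, 5 ≤ N →
      (∀ X : ℝ, 1 ≤ X → (ExceptionalInvariants N c X).Finite ∧
        ((ExceptionalInvariants N c X).ncard : ℝ) ≤ C * X ^ (5 / (N : ℝ) + ε)) ∧
      (∀ T : ℝ, 1 ≤ T → (ExceptionalCurves N c T).Finite ∧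
        ((ExceptionalCurves N c T).ncard : ℝ) ≤ C * T ^ (1 + 30 / (N : ℝ) + ε)) := by
  intro ε hε
  obtain ⟨C₁, c₁, hC₁, hc₁, h₁⟩ := count_one hε
  obtain ⟨C₂, c₂, hC₂, hc₂, h₂⟩ := count_two hε
  have hexp : ∀ {c : ℝ}, min c₁ c₂ ≤ c → ∀ X : ℝ, Real.exp (min c₁ c₂ * Real.sqrt (Real.log X)) ≤
      Real.exp (c * Real.sqrt (Real.log X)) := by
    intro c hc X
    exact Real.exp_le_exp.2 (mul_le_mul_of_nonneg_right hc (Real.sqrt_nonneg _))
  refine ⟨max C₁ C₂, min c₁ c₂, lt_min hc₁ hc₂, fun N hN => ⟨fun X hX => ?_, fun T hT => ?_⟩⟩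
  · obtain ⟨hf, hn⟩ := h₁ N hN X hX
    have hsub : ExceptionalInvariants N (min c₁ c₂) X ⊆ ExceptionalInvariants N c₁ X := by
      rintro j ⟨a1, a2, a3⟩
      exact ⟨a1, a2, fun h => a3 (h.mono (hexp (min_le_left _ _) X))⟩
    refine ⟨hf.subset hsub, (Nat.cast_le.2 (Set.ncard_le_ncard hsub hf)).trans (hn.trans ?_)⟩
    exact mul_le_mul_of_nonneg_right (le_max_left _ _) (Real.rpow_nonneg (by linarith) _)
  · obtain ⟨hf, hn⟩ := h₂ N hN T hT
    have hsub : ExceptionalCurves N (min c₁ c₂) T ⊆ ExceptionalCurves N c₂ T := by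
      rintro x ⟨a1, a2, a3, a4, a5, a6⟩
      exact ⟨a1, a2, a3, a4, a5, fun h => a6 (h.mono (hexp (min_le_right _ _) T))⟩
    refine ⟨hf.subset hsub, (Nat.cast_le.2 (Set.ncard_le_ncard hsub hf)).trans (hn.trans ?_)⟩
    exact mul_le_mul_of_nonneg_right (le_max_right _ _) (Real.rpow_nonneg (by linarith) _)

end Pool.Agent.Results.MP_cda23d_nt.TowersAllModuli
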