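import Pool.Agent.Results.MP_cda23d_nt.TowersAllModuli
import Pool.Agent.Y854.GM.Win

/-!
# Windows of invariants without exceptions to uniformity, for all moduli and over all fields of towers

Let `v ≥ 1` be a sequence with exponent of convergence at most `τ` (for `v_n = (n + 1) ^ a` this is `1 / a`,
for `v_n = b ^ n` it is `0`) and `θ < 1`. For all `α > 0` outside a set of small Hausdorff dimension and all
but finitely many `n` the invariants `j` of height `H` with `|H - α v_n| ≤ v_n ^ θ` have no exceptions to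
uniformity at all: for ALL fields `K` reached from `ℚ` by finitely many steps (a root of a polynomial of
degree at most `d`, or an abelian extension, finite or infinite), ALL elliptic curves over `K` with
invariant `j` and ALL `m` all of whose prime factors are in `[N, exp (c √(log H))]` and larger than `d`,
the image of `Gal(ℚ̄ / K)` in `Aut(E[m])` contains `SL₂(ℤ / m)`.

The starting theorem `InvariantWindows` is of this kind, for `K = ℚ` and `m = p` prime, with the conclusion
that the order of the image is divisible by `p`. Proof: the counting theorem `TowersAllModuli` and the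
passage from counting to windows (`Pool.Agent.Y854.GM.windows`).
-/

set_option autoImplicit false

namespace Pool.Agent.Results.MP_cda23d_nt.WindowsAllModuli

open TowersAllModuli

/-- the height of a rational number: the maximum of the absolute values of numerator and denominator -/
def ht (j : ℚ) : ℕ := max j.num.natAbs j.den

/-- the exponent of convergence of the sequence `v` is at most `τ` -/
def ExpLe (v : ℕ → ℝ) (τ : ℝ) : Prop := ∀ t : ℝ, τ < t → Summable (fun n : ℕ => (v n) ^ (-t))

/-- **Theorem.** For every `ε > 0` there is `c > 0` such that for every `N ≥ 5`, for all sequences `v ≥ 1` of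
exponent of convergence at most `τ ≥ 0` and all `θ < 1` there is a set `E` of Hausdorff dimension at most
`(5 / N + ε + τ) / (1 - θ)` such that for each `α > 0` outside `E` and all but finitely many `n`, all rational
numbers `j` of height `H` with `|H - α v_n| ≤ v_n ^ θ` are uniform up to `exp (c √(log H))`. -/
theorem result :
    ∀ ε : ℝ, 0 < ε → ∃ c : ℝ, 0 < c ∧ ∀ N : ℕ, 5 ≤ N →
      ∀ (v : ℕ → ℝ) (τ θ : ℝ), (∀ n, 1 ≤ v n) → 0 ≤ τ → ExpLe v τ → θ < 1 →
        ∃ E : Set ℝ, dimH E ≤ ENNReal.ofReal ((5 / (N : ℝ) + ε + τ) / (1 - θ)) ∧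
          ∀ α : ℝ, 0 < α → α ∉ E → ∃ n₀ : ℕ, ∀ n : ℕ, n₀ ≤ n → ∀ j : ℚ,
            |(ht j : ℝ) - α * v n| ≤ (v n) ^ θ →
              Uniform ℚ N (Real.exp (c * Real.sqrt (Real.log (ht j : ℝ)))) j := by
  intro ε hε
  obtain ⟨C₁, c, hC₁, hc, h₁⟩ := count_one hε
  refine ⟨c, hc, fun N hN => ?_⟩
  intro v τ θ hv hτ hE hθ1
  set S : Set ℚ := {j | ¬ Uniform ℚ N (Real.exp (c * Real.sqrt (Real.log (ht j : ℝ)))) j} with hS
  obtain ⟨E, h2, h3⟩ := Pool.Agent.Y854.GM.windows S (fun j => (ht j : ℝ)) hv hτ hE
    (s := 5 / (N : ℝ) + ε) (by positivity) hθ1 (by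
      intro η hη
      refine ⟨C₁, fun X hX => ?_⟩
      obtain ⟨hf, hn⟩ := h₁ N hN X hX
      have hsub : {j | j ∈ S ∧ (ht j : ℝ) ≤ X} ⊆ ExceptionalInvariants N c X := by
        rintro j ⟨hj, hjX⟩
        have hn : (j.num.natAbs : ℝ) ≤ (ht j : ℝ) := by exact_mod_cast le_max_left j.num.natAbs j.den
        have hd : (j.den : ℝ) ≤ (ht j : ℝ) := by exact_mod_cast le_max_right j.num.natAbs j.den
        have hd1 : (1 : ℝ) ≤ (j.den : ℝ) := by exact_mod_cast j.den_pos
        have ha : |(j.num : ℝ)| = (j.num.natAbs : ℝ) := by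
          rw [← Int.cast_abs, Int.abs_eq_natAbs]
          simp
        refine ⟨by rw [ha]; exact hn.trans hjX, hd.trans hjX, fun h => hj (h.mono ?_)⟩
        apply Real.exp_le_exp.2
        apply mul_le_mul_of_nonneg_left _ hc.le
        apply Real.sqrt_le_sqrt
        exact Real.log_le_log (by linarith) hjX
      refine ⟨hf.subset hsub, ?_⟩
      calc ({j | j ∈ S ∧ (ht j : ℝ) ≤ X}.ncard : ℝ)
          ≤ ((ExceptionalInvariants N c X).ncard : ℝ) := by
            exact_mod_cast Set.ncard_le_ncard hsub hf
        _ ≤ C₁ * X ^ (5 / (N : ℝ) + ε) := hn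
        _ ≤ C₁ * X ^ (5 / (N : ℝ) + ε + η) := by
            apply mul_le_mul_of_nonneg_left _ hC₁
            exact Real.rpow_le_rpow_of_exponent_le hX (by linarith))
  refine ⟨E, h2, fun α hα hαE => ?_⟩
  obtain ⟨n₀, hn⟩ := h3 α hα hαE
  refine ⟨n₀, fun n hn1 j hw => ?_⟩
  by_contra hcon
  exact absurd (hn n hn1 j hcon) (not_lt.2 hw)

end Pool.Agent.Results.MP_cda23d_nt.WindowsAllModuli
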